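import Pool.Agent.H900.PN.Ir

/-! # The main theorem for families which specialize to the special family -/

set_option autoImplicit false
set_option linter.unusedSectionVars false
set_option linter.unusedVariables false

namespace Pool.Agent.H900.PC

open MvPolynomial FF Module Pool.Agent.Helper93K9.PAR Pool.Agent.H900.LF Pool.Agent.H900.PN

noncomputable section

/-- the family `F` specializes to the special family -/
def HB {s n : ℕ} (D : Dat n (Fin s)) (i0 : Fin s) (T : Finset (Finset (Fin s)))
    (F : Finset (Fin s) → MvPolynomial (Fin (n + 2)) ℂ) : Prop :=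
  ∃ (Ω : IntermediateField ℚ ℂ) (c : ℂ) (G : Finset (Fin s) → MvPolynomial (Fin (n + 2)) Ω),
    IsAlgClosed Ω ∧ Transcendental Ω c ∧
    Algebra.IsAlgebraic (IntermediateField.adjoin Ω {c}) ℂ ∧
    (∀ τ ∈ T, (G τ).IsHomogeneous 3) ∧
    ∀ τ ∈ T, F τ = map (algebraMap ℚ ℂ) (Phi ℚ D i0 τ) + C c * map (algebraMap Ω ℂ) (G τ)

/-- **The theorem over the complex numbers**, for independent parameters. -/
theorem over_B {s n m : ℕ} (D : Dat n (Fin s)) {i0 : Fin s} {j0 : Fin n}
    (hj0 : D.side j0 = false) (hj1 : D.sg j0 = {i0}) {T : Finset (Finset (Fin s))}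
    (hT0 : ∅ ∈ T) (hT1 : {i0} ∈ T) (hTD : ∀ j, D.sg j ∈ T)
    {F : Finset (Fin s) → MvPolynomial (Fin (n + 2)) ℂ} (hB : HB D i0 T F)
    {M : Type} [Field M] [Algebra ℂ M] (t : Fin s → M) (g : Fin (n + 2) → M) (R : Fin m → M)
    (hg : fv T t F g = 0) (hg0 : g 0 ≠ 0) (hi : AlgebraicIndependent ℂ (UU t g R))
    (hodd : Odd (finrank (Kc ℂ (UU t g R)) M)) (l : Fin (n + 2) → M)
    (hl1 : ∀ i j, ¬ AlgebraicIndependent ℂ (Fin.cons (l i / l j) t : Fin (s + 1) → M)) :
    ¬ Relation.ReflTransGen (fun a b : Fin (n + 2) → M => a ≠ 0 ∧ b ≠ 0 ∧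
      Lkk (fv T (fun i => Polynomial.C (t i)) F) a b) g l := by
  classical
  intro hch
  obtain ⟨Tt, hTt⟩ := chain_lift2 hch
  obtain ⟨Ω, c, G, hΩ, hc, halg, hG, hFG⟩ := hB
  have hchar : CharZero Ω := inferInstance
  have hFΩ : ∀ {A : Type} [CommRing A] [Algebra ℂ A] (tt : Fin s → A) (y : Fin (n + 2) → A),
      fv T tt F y = eqn T tt (Phi Ω D i0) G (algebraMap ℂ A c) y := by
    intro A _ _ tt y
    unfold eqn fv
    rw [Finset.mul_sum, ← Finset.sum_add_distrib]
    refine Finset.sum_congr rfl fun τ hτ => ?_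
    rw [hFG τ hτ, map_add, map_mul, aeval_C]
    have h1 : map (algebraMap ℚ ℂ) (Phi ℚ D i0 τ) = map (algebraMap Ω ℂ) (Phi Ω D i0 τ) := by
      rw [Phi_map, Phi_map]
    rw [h1, aeval_map_algebraMap, aeval_map_algebraMap]
    ring
  have hfin : FiniteDimensional (Kc ℂ (UU t g R)) M := FiniteDimensional.of_finrank_pos hodd.pos
  obtain ⟨K, E, _, _, _, _, _, _, ι, ε, c', u', hFF, hc', hιε, hu', hTm, hTc, hdu⟩ :=
    LF.desc2 Ω ℂ M c hc halg _ (UU t g R)
      (Finset.univ.image l ∪ (Tt ∪ (Finset.univ.image g ∪ (Finset.univ.image t ∪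
        Finset.univ.image R)))) ∅ hfin
  have hEinj : Function.Injective ε := (ε : E →+* M).injective
  have hιinj : Function.Injective ι := (ι : K →+* ℂ).injective
  choose l' hεl using fun i => hTm (l i) (Finset.mem_union_left _
    (Finset.mem_image_of_mem _ (Finset.mem_univ i)))
  choose g' hεg using fun i => hTm (g i) (Finset.mem_union_right _ (Finset.mem_union_right _
    (Finset.mem_union_left _ (Finset.mem_image_of_mem _ (Finset.mem_univ i)))))
  choose t' hεt using fun i => hTm (t i) (Finset.mem_union_right _ (Finset.mem_union_right _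
    (Finset.mem_union_right _ (Finset.mem_union_left _
      (Finset.mem_image_of_mem _ (Finset.mem_univ i))))))
  choose R' hεR using fun i => hTm (R i) (Finset.mem_union_right _ (Finset.mem_union_right _
    (Finset.mem_union_right _ (Finset.mem_union_right _
      (Finset.mem_image_of_mem _ (Finset.mem_univ i))))))
  have hUU : ∀ i, ε (UU t' g' R' i) = UU t g R i := by
    intro i
    unfold UU
    rw [Function.comp_apply, Function.comp_apply]
    rcases eqv s n m i with a | a | a
    · exact hεt a
    · show ε (g' a.castSucc.succ / g' 0) = g a.castSucc.succ / g 0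
      rw [map_div₀, hεg, hεg]
    · exact hεR a
  have huy : u' = UU t' g' R' := by
    funext i
    apply hEinj
    rw [hu', hUU]
  have hευ : ∀ y : Fin (n + 2) → E, ε (eqn T t' (Phi Ω D i0) G (algebraMap K E c') y) =
      fv T t F (fun i => ε (y i)) := by
    intro y
    rw [hFΩ]
    unfold eqn
    rw [map_add, map_mul, hιε, hc', fv_map, fv_map, funext hεt]
  have hctr : Transcendental Ω c' := by
    intro h
    apply hc
    rw [← hc']
    exact h.algHom ι
  refine core D hj0 hj1 hT0 hT1 hTD hG hctr t' g' R' ?_ ?_ ?_ ?_ l' (fun i j hij => ?_) ?_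
  · apply hEinj
    rw [hευ, funext hεg, hg, map_zero]
  · intro h0
    apply hg0
    rw [← hεg, h0, map_zero]
  · apply ind_down hιε
    rw [funext hUU]
    exact hi
  · rw [← huy, hdu]
    exact hodd
  · apply hl1 i j
    have h1 := ind_up hιε (alg_of hc' halg) hij
    have h2 : (fun a => ε ((Fin.cons (l' i / l' j) t' : Fin (s + 1) → E) a)) =
        Fin.cons (l i / l j) t := by
      funext a
      refine Fin.cases ?_ (fun a => ?_) a
      · show ε (l' i / l' j) = l i / l j
        rw [map_div₀, hεl, hεl]
      · exact hεt _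
    rw [h2] at h1
    exact h1
  · refine hTt E _ (ε : E →+* M)
      (fun z hz => hTm z (Finset.mem_union_right _ (Finset.mem_union_left _ hz)))
      (fun y => ?_) _ _ hεg hεl
    rw [hFΩ]
    have e1 : ∀ H : Finset (Fin s) → MvPolynomial (Fin (n + 2)) Ω,
        Polynomial.map (ε : E →+* M) (fv T (fun i => Polynomial.C (t' i)) H y) =
          fv T (fun i => Polynomial.C (t i)) H fun i => (y i).map (ε : E →+* M) := by
      intro H
      have h2 := fv_map (Polynomial.mapAlgHom ε) T (fun i => Polynomial.C (t' i)) H y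
      have h3 : (fun i => (Polynomial.mapAlgHom ε) (Polynomial.C (t' i))) =
          fun i => Polynomial.C (t i) := by
        funext i
        rw [← hεt]
        exact Polynomial.map_C _
      rw [h3] at h2
      exact h2
    unfold eqn
    rw [Polynomial.map_add, Polynomial.map_mul, e1, e1, Polynomial.map_C]
    congr 2
    have h3 : (ε : E →+* M) (algebraMap K E c') = algebraMap ℂ M c := by
      show ε (algebraMap K E c') = _
      rw [hιε, hc']
    rw [h3, IsScalarTower.algebraMap_apply ℂ M (Polynomial M), Polynomial.algebraMap_apply]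
    rfl

/-- the first coordinate of a generic point is nonzero -/
theorem gp1 {k M : Type} [Field k] [Infinite k] [Field M] [Algebra k M] {n m : ℕ}
    {f : MvPolynomial (Fin (n + 2)) k} (hf : f.IsHomogeneous 3)
    (hco : coeff (Finsupp.single (Fin.last (n + 1)) 3) f ≠ 0) {g : Fin (n + 2) → M}
    {R : Fin m → M} (hg0 : g ≠ 0) (hg : aeval g f = 0)
    (halg : ∀ z : M, IsAlgebraic (IntermediateField.adjoin k
      ({z | ∃ i j, z = g i / g j} ∪ Set.range R)) z)
    {ι' : Type} {y : ι' → M} (hy : AlgebraicIndependent k y)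
    (hc : ((n + m : ℕ) : Cardinal) ≤ Cardinal.mk ι') : g 0 ≠ 0 := by
  classical
  intro ha
  obtain ⟨i1, hi1⟩ := Function.ne_iff.1 hg0
  rw [Pi.zero_apply] at hi1
  have hai : (0 : Fin (n + 2)) ≠ i1 := by
    rintro rfl
    exact hi1 ha
  let I := {i : Fin (n + 2) // i ≠ i1 ∧ i ≠ 0}
  let b : I ⊕ Fin m → M := Sum.elim (fun i => g i.1 / g i1) R
  have hcard : Fintype.card I = n := by
    rw [Fintype.card_subtype]
    have h1 : (Finset.univ.filter fun i : Fin (n + 2) => i ≠ i1 ∧ i ≠ 0) =
        (Finset.univ.erase i1).erase 0 := by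
      ext i
      simp only [Finset.mem_filter, Finset.mem_univ, true_and, Finset.mem_erase, ne_eq,
        and_true]
      tauto
    rw [h1, Finset.card_erase_of_mem (Finset.mem_erase.2 ⟨hai, Finset.mem_univ _⟩),
      Finset.card_erase_of_mem (Finset.mem_univ _), Finset.card_univ, Fintype.card_fin]
    omega
  have hbi : AlgebraicIndependent k b := by
    refine Pool.Agent.X328.FD.indep_count (y := y) (alg_of_gens _
      ({z | ∃ i j, z = g i / g j} ∪ Set.range R) ?_ halg) hy ?_
    · have hb : ∀ s, b s ∈ IntermediateField.adjoin k (Set.range b) :=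
        fun s => IntermediateField.subset_adjoin _ _ ⟨s, rfl⟩
      have hgi : ∀ i, g i / g i1 ∈ IntermediateField.adjoin k (Set.range b) := by
        intro i
        by_cases h1 : i = i1
        · rw [h1, div_self hi1]
          exact one_mem _
        by_cases h2 : i = 0
        · rw [h2, ha, zero_div]
          exact zero_mem _
        · exact hb (Sum.inl ⟨i, h1, h2⟩)
      intro z hz
      apply alg_mem
      rcases hz with ⟨i, j, rfl⟩ | ⟨l, rfl⟩
      · rw [← div_div_div_cancel_right₀ hi1]
        exact div_mem (hgi i) (hgi j)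
      · exact hb (Sum.inr l)
    · refine le_trans (le_of_eq ?_) hc
      rw [Cardinal.mk_sum, Cardinal.mk_fintype I, hcard]
      simp only [Cardinal.lift_id, Cardinal.mk_fin]
      push_cast
      ring
  let pos : Fin (n + 2) → MvPolynomial (I ⊕ Fin m) k := fun i =>
    if h1 : i = i1 then 1 else if h2 : i = 0 then 0 else X (Sum.inl ⟨i, h1, h2⟩)
  have hpos : ∀ i, aeval b (pos i) = (g i1)⁻¹ * g i := by
    intro i
    by_cases h1 : i = i1
    · have h2 : pos i = 1 := dif_pos h1
      rw [h2, map_one, h1, inv_mul_cancel₀ hi1]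
    by_cases h2 : i = 0
    · have h3 : pos i = 0 := (dif_neg h1).trans (dif_pos h2)
      rw [h3, map_zero, h2, ha, mul_zero]
    · have h3 : pos i = X (Sum.inl ⟨i, h1, h2⟩) := (dif_neg h1).trans (dif_neg h2)
      rw [h3, aeval_X, inv_mul_eq_div]
      rfl
  have hP0 : aeval b (aeval pos f) = 0 := by
    rw [comp_aeval_apply, funext hpos, PN.hom_smul hf, hg, mul_zero]
  have hP1 : aeval pos f = 0 := (algebraicIndependent_iff.1 hbi) _ hP0
  have key : ∀ μ : k, aeval (fun i : Fin (n + 2) => if i = i1 then (1 : k) else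
      if i = Fin.last (n + 1) then μ else 0) f = 0 := by
    intro μ
    have hP2 : aeval (Sum.elim (fun i : I => if i.1 = Fin.last (n + 1) then μ else 0)
        (fun _ => 0) : I ⊕ Fin m → k) (aeval pos f) = 0 := by rw [hP1, map_zero]
    rw [comp_aeval_apply] at hP2
    refine Eq.trans ?_ hP2
    congr 1
    congr 1
    funext i
    by_cases h1 : i = i1
    · have h2 : pos i = 1 := dif_pos h1
      rw [h2, map_one, if_pos h1]
    by_cases h2 : i = 0
    · have h3 : pos i = 0 := (dif_neg h1).trans (dif_pos h2)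
      rw [h3, map_zero, if_neg h1, if_neg]
      rw [h2]
      intro h
      exact absurd (congrArg Fin.val h) (by simp)
    · have h3 : pos i = X (Sum.inl ⟨i, h1, h2⟩) := (dif_neg h1).trans (dif_neg h2)
      rw [h3, aeval_X, if_neg h1]
      rfl
  by_cases hl : i1 = Fin.last (n + 1)
  · have h1 := key 0
    rw [TrL.aeval_single hf i1 _ (by rw [if_pos rfl])
      fun i hi => by rw [if_neg hi, ite_self]] at h1
    rw [hl] at h1
    exact hco h1
  -- the polynomial in the first coordinate
  let q : Polynomial k := aeval (fun i : Fin (n + 2) => if i = i1 then (Polynomial.X : Polynomial k)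
    else if i = Fin.last (n + 1) then 1 else 0) f
  have hq : ∀ μ : k, q.eval μ = aeval (fun i : Fin (n + 2) => if i = i1 then μ
    else if i = Fin.last (n + 1) then 1 else 0) f := by
    intro μ
    have h1 := comp_aeval_apply (fun i : Fin (n + 2) => if i = i1 then (Polynomial.X : Polynomial k)
      else if i = Fin.last (n + 1) then 1 else 0) (Polynomial.aeval (R := k) μ) f
    rw [Polynomial.coe_aeval_eq_eval] at h1
    refine h1.trans ?_
    congr 1
    congr 1
    funext i
    by_cases h1 : i = i1
    · rw [if_pos h1, if_pos h1]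
      exact Polynomial.eval_X
    · rw [if_neg h1, if_neg h1]
      by_cases h2 : i = Fin.last (n + 1)
      · rw [if_pos h2, if_pos h2]
        exact Polynomial.eval_one
      · rw [if_neg h2, if_neg h2]
        exact Polynomial.eval_zero
  have hq0 : ∀ μ : k, μ ≠ 0 → q.eval μ = 0 := by
    intro μ hμ
    rw [hq]
    have h1 := PN.hom_smul (A := k) hf (u := μ) (y := fun i : Fin (n + 2) => if i = i1 then (1 : k) else
      if i = Fin.last (n + 1) then μ⁻¹ else 0)
    rw [key, mul_zero] at h1
    refine Eq.trans ?_ h1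
    congr 1
    congr 1
    funext i
    by_cases h1 : i = i1
    · rw [if_pos h1, if_pos h1, mul_one]
    · rw [if_neg h1, if_neg h1]
      by_cases h2 : i = Fin.last (n + 1)
      · rw [if_pos h2, if_pos h2, mul_inv_cancel₀ hμ]
      · rw [if_neg h2, if_neg h2, mul_zero]
  have hqz : q * Polynomial.X = 0 := by
    apply Polynomial.funext
    intro μ
    rw [Polynomial.eval_mul, Polynomial.eval_X, Polynomial.eval_zero]
    by_cases hμ : μ = 0
    · rw [hμ, mul_zero]
    · rw [hq0 μ hμ, zero_mul]
  have hqz' : q = 0 := (mul_eq_zero.1 hqz).resolve_right Polynomial.X_ne_zero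
  have h2 := hq 0
  rw [hqz', Polynomial.eval_zero, TrL.aeval_single hf (Fin.last (n + 1)) _ (by
      rw [if_neg (fun h => hl h.symm), if_pos rfl]) (fun i hi => by
        by_cases h1 : i = i1
        · rw [if_pos h1]
        · rw [if_neg h1, if_neg hi])] at h2
  exact hco h2.symm

section main

variable {s n m : ℕ} (D : Dat n (Fin s)) {i0 : Fin s} {j0 : Fin n}
    (hj0 : D.side j0 = false) (hj1 : D.sg j0 = {i0}) {T : Finset (Finset (Fin s))}
    (hT0 : ∅ ∈ T) (hT1 : {i0} ∈ T) (hTD : ∀ j, D.sg j ∈ T)
    {F : Finset (Fin s) → MvPolynomial (Fin (n + 2)) ℂ}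

include hj0 hj1 hT0 hT1 hTD

theorem main_oddB (hB : HB D i0 T F) {M : Type} [Field M] [Algebra (Kt s) M] (g : Fin (n + 2) → M) (R : Fin m → M)
    (hg : aeval g (fam T F) = 0) (hg0 : g 0 ≠ 0)
    (hi : AlgebraicIndependent (Kt s)
      (Sum.elim (fun j : Fin n => g j.castSucc.succ / g 0) R))
    (hodd : Odd (finrank (IntermediateField.adjoin (Kt s)
      (Set.range (Sum.elim (fun j : Fin n => g j.castSucc.succ / g 0) R))) M))
    (l : Fin (n + 2) → M) (hl : ∀ i, IsAlgebraic (Kt s) (l i)) :
    ¬ Relation.ReflTransGen (Joined (fam T F)) g l := by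
  classical
  intro hch
  let _ : Algebra ℂ M := ((algebraMap (Kt s) M).comp (algebraMap ℂ (Kt s))).toAlgebra
  have _ : IsScalarTower ℂ (Kt s) M := IsScalarTower.of_algebraMap_eq fun _ => rfl
  set t : Fin s → M := fun i => algebraMap (Kt s) M (Pool.Agent.X328.FD.tf s i) with ht
  set S : Set M := Set.range (Sum.elim (fun j : Fin n => g j.castSucc.succ / g 0) R) with hS
  have htop : (IsScalarTower.toAlgHom ℂ (Kt s) M).fieldRange =
      IntermediateField.adjoin ℂ (Set.range t) := by
    have h1 : IntermediateField.adjoin ℂ (Set.range (Pool.Agent.X328.FD.tf s)) = ⊤ :=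
      Pool.Agent.X328.FD.tf_top
    rw [AlgHom.fieldRange_eq_map, ← h1, IntermediateField.adjoin_map, ← Set.range_comp]
    rfl
  have hranU : Set.range (UU t g R) = Set.range t ∪ S := by
    unfold UU
    rw [(eqv s n m).surjective.range_comp]
    exact Set.Sum.elim_range _ _
  have hres : (IntermediateField.adjoin (Kt s) S).restrictScalars ℂ = Kc ℂ (UU t g R) := by
    rw [Pool.Agent.X328.FD.res_type, htop, sup_comm, ← IntermediateField.adjoin_union,
      Set.union_comm, ← hranU]
  have hodd' : Odd (finrank (Kc ℂ (UU t g R)) M) := by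
    rw [← hres]
    exact hodd
  have hiU : AlgebraicIndependent ℂ (UU t g R) := by
    unfold UU
    rw [algebraicIndependent_equiv]
    have h1 := AlgebraicIndependent.sumElim_comp (Pool.Agent.X328.FD.tf_indep (m := s)) hi
    have h2 : uu t (fun j => g j.castSucc.succ / g 0) R =
        (Sum.elim (Sum.elim (fun j : Fin n => g j.castSucc.succ / g 0) R)
          (algebraMap (Kt s) M ∘ Pool.Agent.X328.FD.tf s)) ∘ Equiv.sumComm _ _ := by
      funext v
      rcases v with v | v
      · rfl
      · rfl
    rw [h2, algebraicIndependent_equiv]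
    exact h1
  have halg' : ∀ z : M, IsAlgebraic (Kt s) z → IsAlgebraic
      (IntermediateField.adjoin ℂ (Set.range t)) z := by
    intro z hz
    rw [← htop]
    let f : Kt s →+* (IsScalarTower.toAlgHom ℂ (Kt s) M).fieldRange :=
      (algebraMap (Kt s) M).codRestrict (IsScalarTower.toAlgHom ℂ (Kt s) M).fieldRange
        fun a => ⟨a, rfl⟩
    obtain ⟨P, hP, hPz⟩ := hz
    refine ⟨P.map f, ?_, ?_⟩
    · rwa [Ne, Polynomial.map_eq_zero]
    · rw [Polynomial.aeval_def, Polynomial.eval₂_map]
      exact hPz
  refine over_B D hj0 hj1 hT0 hT1 hTD hB t g R ?_ hg0 hiU hodd' l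
    (fun i j => dep_of_alg (halg' _ ?_)) ?_
  · rw [← hg, aeval_fam]
  · rw [div_eq_mul_inv]
    exact (hl i).mul (hl j).inv
  · refine Relation.ReflTransGen.mono (fun a b' h => ?_) _ _ hch
    obtain ⟨ha, hb', d, Cc, hd, hC, e1, e2⟩ := h
    refine ⟨ha, hb', d, Cc, hd, ?_, e1, e2⟩
    have _ : IsScalarTower ℂ (Kt s) (Polynomial M) := IsScalarTower.of_algebraMap_eq fun _ => rfl
    rw [← hC, aeval_fam]
    rfl

theorem fam_irrB (hF : ∀ τ ∈ T, (F τ).IsHomogeneous 3) (hB : HB D i0 T F)
    (hco : coeff (Finsupp.single (Fin.last (n + 1)) 3) (fam T F) ≠ 0) : Irreducible (fam T F) := by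
  classical
  by_contra hirr
  set f := fam T F with hfdef
  have hf : f.IsHomogeneous 3 := fam_hom hF
  have hf0 : f ≠ 0 := by
    intro h
    apply hco
    rw [h, coeff_zero]
  obtain ⟨l, q, hlq, hl⟩ := lin_factor hf hf0 hirr
  let U := FractionRing (MvPolynomial (Fin n) (Kt s))
  obtain ⟨c, hc⟩ := lin_aeval (A := U) hl
  have hlast : c (Fin.last (n + 1)) ≠ 0 := by
    intro h0
    have h1 : aeval (Pi.single (Fin.last (n + 1)) 1 : Fin (n + 2) → U) f =
        algebraMap (Kt s) U (coeff (Finsupp.single (Fin.last (n + 1)) 3) f) :=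
      TrL.aeval_single hf _ _ (Pi.single_eq_same _ _) fun i hi => Pi.single_eq_of_ne hi _
    rw [hlq, map_mul, hc, Finset.sum_eq_single (Fin.last (n + 1)), h0, map_zero, zero_mul,
      zero_mul, ← hlq] at h1
    · exact hco ((map_eq_zero _).1 h1.symm)
    · intro i _ hi
      rw [Pi.single_eq_of_ne hi, mul_zero]
    · intro h
      exact absurd (Finset.mem_univ _) h
  let xv : Fin n → U := fun j => algebraMap (MvPolynomial (Fin n) (Kt s)) U (X j)
  set z : Fin (n + 2) → U := Fin.cons 1 (Fin.snoc (α := fun _ => U) xv 0) with hz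
  let θ : U := -(∑ i, algebraMap (Kt s) U (c i) * z i) / algebraMap (Kt s) U
    (c (Fin.last (n + 1)))
  let g : Fin (n + 2) → U := Fin.cons 1 (Fin.snoc (α := fun _ => U) xv θ)
  have hzl : z (Fin.last (n + 1)) = 0 := by
    rw [hz, ← Fin.succ_last, Fin.cons_succ, Fin.snoc_last]
  have hgz : ∀ i, g i = z i + if i = Fin.last (n + 1) then θ else 0 := by
    intro i
    refine TrL.cases3 (P := fun i => g i = z i + if i = Fin.last (n + 1) then θ else 0)
      ?_ ?_ ?_ i
    · rw [if_neg (by
        intro h
        exact absurd (congrArg Fin.val h) (by simp)), add_zero]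
      rfl
    · intro j
      rw [if_neg (by
        intro h
        have h3 := congrArg Fin.val h
        simp only [Fin.val_succ, Fin.val_castSucc, Fin.val_last] at h3
        have := j.isLt
        omega), add_zero]
      show (Fin.cons 1 (Fin.snoc (α := fun _ => U) xv θ) : Fin (n + 2) → U) j.castSucc.succ = _
      rw [hz, Fin.cons_succ, Fin.cons_succ, Fin.snoc_castSucc, Fin.snoc_castSucc]
    · rw [if_pos rfl, hzl, zero_add]
      show (Fin.cons 1 (Fin.snoc (α := fun _ => U) xv θ) : Fin (n + 2) → U) (Fin.last (n + 1)) = θ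
      rw [← Fin.succ_last, Fin.cons_succ, Fin.snoc_last]
  have hg0 : g 0 = 1 := rfl
  have hgj : ∀ j : Fin n, g j.castSucc.succ = xv j := by
    intro j
    show (Fin.cons 1 (Fin.snoc (α := fun _ => U) xv θ) : Fin (n + 2) → U) j.castSucc.succ = _
    rw [Fin.cons_succ, Fin.snoc_castSucc]
  have hlg : aeval g l = 0 := by
    rw [hc]
    simp only [hgz, mul_add, Finset.sum_add_distrib]
    have h1 : ∑ i, algebraMap (Kt s) U (c i) * (if i = Fin.last (n + 1) then θ else 0) =
        algebraMap (Kt s) U (c (Fin.last (n + 1))) * θ := by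
      rw [Finset.sum_eq_single (Fin.last (n + 1))]
      · rw [if_pos rfl]
      · intro i _ hi
        rw [if_neg hi, mul_zero]
      · intro h
        exact absurd (Finset.mem_univ _) h
    rw [h1]
    have h2 : algebraMap (Kt s) U (c (Fin.last (n + 1))) ≠ 0 := by rwa [Ne, map_eq_zero]
    show _ + algebraMap (Kt s) U (c (Fin.last (n + 1))) * (-(∑ i, algebraMap (Kt s) U (c i) * z i) /
      algebraMap (Kt s) U (c (Fin.last (n + 1)))) = 0
    rw [mul_div_cancel₀ _ h2]
    ring
  have hfg : aeval g f = 0 := by rw [hlq, map_mul, hlg, zero_mul]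
  have hgne : g ≠ 0 := fun h => one_ne_zero (hg0.symm.trans (congrFun h 0))
  have hinf : Infinite (Kt s) := Infinite.of_injective _ (algebraMap ℂ (Kt s)).injective
  obtain ⟨p, -, hp⟩ := param_joined (N := n) hf g hgne hfg
  have hS : (Sum.elim (fun j : Fin n => g j.castSucc.succ / g 0) (Fin.elim0 : Fin 0 → U)) =
      xv ∘ (Equiv.sumEmpty (Fin n) (Fin 0)) := by
    funext v
    rcases v with v | v
    · show g v.castSucc.succ / g 0 = xv v
      rw [hgj, hg0, div_one]
    · exact Fin.elim0 v
  have hxi : AlgebraicIndependent (Kt s) xv := LF.vars_indep (Kt s) n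
  have htop : IntermediateField.adjoin (Kt s) (Set.range xv) = ⊤ := by
    rw [eq_top_iff]
    intro u _
    obtain ⟨a, b, -, rfl⟩ := IsFractionRing.div_surjective (A := MvPolynomial (Fin n) (Kt s)) u
    have hmem : ∀ P : MvPolynomial (Fin n) (Kt s), algebraMap _ U P ∈
        IntermediateField.adjoin (Kt s) (Set.range xv) := by
      intro P
      have h1 : algebraMap _ U P = aeval xv P := by
        have h2 := comp_aeval_apply (X : Fin n → MvPolynomial (Fin n) (Kt s))
          (IsScalarTower.toAlgHom (Kt s) (MvPolynomial (Fin n) (Kt s)) U) P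
        rw [aeval_X_left_apply] at h2
        exact h2
      rw [h1, aeval_def, eval₂_eq]
      exact sum_mem fun α _ => mul_mem (algebraMap_mem _ _)
        (prod_mem fun i _ => pow_mem
          (IntermediateField.subset_adjoin (Kt s) (Set.range xv) ⟨i, rfl⟩) _)
    exact div_mem (hmem a) (hmem b)
  refine main_oddB (m := 0) D hj0 hj1 hT0 hT1 hTD hB g (Fin.elim0 : Fin 0 → U) hfg
    (by rw [hg0]; exact one_ne_zero) ?_ ?_ (fun i => algebraMap (Kt s) U (p i))
    (fun i => isAlgebraic_algebraMap _) (Relation.ReflTransGen.single hp)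
  · rw [hS, algebraicIndependent_equiv]
    exact hxi
  · have h1 : Set.range (Sum.elim (fun j : Fin n => g j.castSucc.succ / g 0)
        (Fin.elim0 : Fin 0 → U)) = Set.range xv := by
      rw [hS]
      exact (Equiv.sumEmpty (Fin n) (Fin 0)).surjective.range_comp _
    rw [h1, htop, IntermediateField.finrank_top]
    exact odd_one

/-- **The main theorem for independent coefficients.** -/
theorem main_auxB (hF : ∀ τ ∈ T, (F τ).IsHomogeneous 3) (hB : HB D i0 T F)
    (hco : coeff (Finsupp.single (Fin.last (n + 1)) 3) (fam T F) ≠ 0) {M : Type} [Field M] [Algebra (Kt s) M] (g : Fin (n + 2) → M) (R : Fin m → M)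
    (hg0 : g ≠ 0) (hg : aeval g (fam T F) = 0) {ι' : Type} {y : ι' → M}
    (hy : AlgebraicIndependent (Kt s) y) (hc : ((n + m : ℕ) : Cardinal) ≤ Cardinal.mk ι')
    (hodd : Odd (finrank (IntermediateField.adjoin (Kt s)
      ({z | ∃ i j, z = g i / g j} ∪ Set.range R)) M))
    (l : Fin (n + 2) → M) (hl : ∀ i, IsAlgebraic (Kt s) (l i)) :
    ¬ Relation.ReflTransGen (Joined (fam T F)) g l := by
  classical
  set f := fam T F with hfdef
  have hf : f.IsHomogeneous 3 := fam_hom hF
  have hirr : Irreducible f := fam_irrB D hj0 hj1 hT0 hT1 hTD hF hB hco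
  set S : Set M := {z | ∃ i j, z = g i / g j} ∪ Set.range R with hS
  have halg : ∀ z : M, IsAlgebraic (IntermediateField.adjoin (Kt s) S) z := by
    intro z
    have : FiniteDimensional (IntermediateField.adjoin (Kt s) S) M :=
      FiniteDimensional.of_finrank_pos hodd.pos
    exact Algebra.IsAlgebraic.isAlgebraic z
  have hinf : Infinite (Kt s) := Infinite.of_injective _ (algebraMap ℂ (Kt s)).injective
  have hg00 := gp1 hf hco hg0 hg halg hy hc
  -- the cylinder
  let x : Fin (n + m + 2) → M := Fin.cons (g 0) (Fin.snoc (α := fun _ => M)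
    (Fin.append (fun j : Fin n => g j.castSucc.succ) fun l : Fin m => R l * g 0)
    (g (Fin.last (n + 1))))
  let rr : Fin (n + 2) → Fin (n + m + 2) := Fin.cons 0 (Fin.snoc (α := fun _ => Fin (n + m + 2))
    (fun j : Fin n => (Fin.castAdd m j).castSucc.succ) (Fin.last (n + m + 1)))
  have x0 : x 0 = g 0 := rfl
  have xl : x (Fin.last (n + m + 1)) = g (Fin.last (n + 1)) := by
    show (Fin.cons (g 0) (Fin.snoc (α := fun _ => M) (Fin.append (fun j : Fin n =>
      g j.castSucc.succ) fun l : Fin m => R l * g 0) (g (Fin.last (n + 1)))) :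
        Fin (n + m + 2) → M) (Fin.last (n + m + 1)) = _
    rw [← Fin.succ_last (n + m), Fin.cons_succ, Fin.snoc_last]
  have xm : ∀ i : Fin (n + m), x i.castSucc.succ = (Fin.append (fun j : Fin n =>
      g j.castSucc.succ) fun l : Fin m => R l * g 0) i := by
    intro i
    show (Fin.cons (g 0) (Fin.snoc (α := fun _ => M) (Fin.append (fun j : Fin n =>
      g j.castSucc.succ) fun l : Fin m => R l * g 0) (g (Fin.last (n + 1)))) :
        Fin (n + m + 2) → M) i.castSucc.succ = _
    rw [Fin.cons_succ, Fin.snoc_castSucc]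
  have r0 : rr 0 = 0 := rfl
  have rl : rr (Fin.last (n + 1)) = Fin.last (n + m + 1) := by
    show (Fin.cons 0 (Fin.snoc (α := fun _ => Fin (n + m + 2))
      (fun j : Fin n => (Fin.castAdd m j).castSucc.succ) (Fin.last (n + m + 1))) :
        Fin (n + 2) → Fin (n + m + 2)) (Fin.last (n + 1)) = _
    rw [← Fin.succ_last n, Fin.cons_succ, Fin.snoc_last]
  have rm : ∀ j : Fin n, rr j.castSucc.succ = (Fin.castAdd m j).castSucc.succ := by
    intro j
    show (Fin.cons 0 (Fin.snoc (α := fun _ => Fin (n + m + 2))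
      (fun j : Fin n => (Fin.castAdd m j).castSucc.succ) (Fin.last (n + m + 1))) :
        Fin (n + 2) → Fin (n + m + 2)) j.castSucc.succ = _
    rw [Fin.cons_succ, Fin.snoc_castSucc]
  have hxr : ∀ i, x (rr i) = g i := by
    intro i
    refine TrL.cases3 (P := fun i => x (rr i) = g i) ?_ ?_ ?_ i
    · rw [r0, x0]
    · intro j
      rw [rm, xm, Fin.append_left]
    · rw [rl, xl]
  have rinj : Function.Injective rr := by
    have hval : ∀ i, (rr i).val = if i = Fin.last (n + 1) then n + m + 1 else i.val := by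
      intro i
      refine TrL.cases3 (P := fun i => (rr i).val = if i = Fin.last (n + 1) then n + m + 1
        else i.val) ?_ ?_ ?_ i
      · rw [r0, if_neg (by
          intro h
          exact absurd (congrArg Fin.val h) (by simp))]
        rfl
      · intro j
        rw [rm, if_neg (by
          intro h
          have h3 := congrArg Fin.val h
          simp only [Fin.val_succ, Fin.val_castSucc, Fin.val_last] at h3
          have := j.isLt
          omega)]
        rfl
      · rw [rl, if_pos rfl]
        rfl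
    intro i j h
    have h1 := congrArg Fin.val h
    rw [hval, hval] at h1
    have hi := i.isLt
    have hj := j.isLt
    have hil : i ≠ Fin.last (n + 1) → i.val < n + 1 := fun h => Fin.val_lt_last h
    have hjl : j ≠ Fin.last (n + 1) → j.val < n + 1 := fun h => Fin.val_lt_last h
    by_cases h2 : i = Fin.last (n + 1) <;> by_cases h3 : j = Fin.last (n + 1)
    · rw [h2, h3]
    · rw [if_pos h2, if_neg h3] at h1
      have := hjl h3
      omega
    · rw [if_neg h2, if_pos h3] at h1
      have := hil h2
      omega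
    · rw [if_neg h2, if_neg h3] at h1
      exact Fin.ext h1
  have hF' : (rename rr f).IsHomogeneous 3 := hf.rename_isHomogeneous
  have hirr' : Irreducible (rename rr f) := by
    have h1 : Prime f := hirr.prime
    let e := Equiv.ofInjective rr rinj
    have h2 : Prime (renameEquiv (Kt s) e f) := (MulEquiv.prime_iff (renameEquiv (Kt s) e)).2 h1
    have h3 : Prime (rename (Subtype.val : Set.range rr → Fin (n + m + 2))
        (renameEquiv (Kt s) e f)) := (prime_rename_iff _).2 h2
    rw [renameEquiv_apply, rename_rename] at h3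
    exact h3.irreducible
  have hlast' : coeff (Finsupp.single (Fin.last (n + m + 1)) 3) (rename rr f) ≠ 0 := by
    have h1 : aeval (Pi.single (Fin.last (n + m + 1)) 1 : Fin (n + m + 2) → Kt s)
        (rename rr f) = coeff (Finsupp.single (Fin.last (n + m + 1)) 3) (rename rr f) :=
      TrL.aeval_single hF' _ _ (Pi.single_eq_same _ _) fun i hi => Pi.single_eq_of_ne hi _
    rw [← h1, aeval_rename]
    have h2 := TrL.aeval_single (R := Kt s) hf (Fin.last (n + 1))
      ((Pi.single (Fin.last (n + m + 1)) 1 : Fin (n + m + 2) → Kt s) ∘ rr) (by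
        rw [Function.comp_apply, rl, Pi.single_eq_same]) (fun i hi => by
        rw [Function.comp_apply, Pi.single_eq_of_ne]
        intro h
        exact hi (rinj (h.trans rl.symm)))
    rw [h2]
    exact hco
  have hxf : aeval x (rename rr f) = 0 := by
    rw [aeval_rename, show x ∘ rr = g from funext hxr, hg]
  have hx0 : x 0 ≠ 0 := hg00
  have hyx : ∀ i : Fin (n + m), yx x i =
      (Fin.append (fun j : Fin n => g j.castSucc.succ / g 0) R : Fin (n + m) → M) i := by
    intro i
    unfold yx
    rw [xm, x0]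
    refine Fin.addCases (fun j => ?_) (fun l => ?_) i
    · rw [Fin.append_left, Fin.append_left]
    · rw [Fin.append_right, Fin.append_right, mul_div_cancel_right₀ _ hg00]
  have hyxe : yx x = (Sum.elim (fun j : Fin n => g j.castSucc.succ / g 0) R) ∘
      finSumFinEquiv.symm := by
    funext i
    rw [hyx]
    refine Fin.addCases (fun j => ?_) (fun l => ?_) i
    · rw [Fin.append_left, Function.comp_apply, finSumFinEquiv_symm_apply_castAdd]
      rfl
    · rw [Fin.append_right, Function.comp_apply, finSumFinEquiv_symm_apply_natAdd]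
      rfl
  have hrf : rf (Kt s) x = IntermediateField.adjoin (Kt s) S := by
    have hall : ∀ a, x a / g 0 ∈ IntermediateField.adjoin (Kt s) S := by
      intro a
      refine TrL.cases3 (P := fun a => x a / g 0 ∈ IntermediateField.adjoin (Kt s) S) ?_ ?_ ?_ a
      · rw [x0, div_self hg00]
        exact one_mem _
      · intro i
        rw [xm]
        refine Fin.addCases (fun j => ?_) (fun l => ?_) i
        · rw [Fin.append_left]
          exact IntermediateField.subset_adjoin _ _ (Or.inl ⟨_, _, rfl⟩)
        · rw [Fin.append_right, mul_div_cancel_right₀ _ hg00]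
          exact IntermediateField.subset_adjoin _ _ (Or.inr ⟨_, rfl⟩)
      · rw [xl]
        exact IntermediateField.subset_adjoin _ _ (Or.inl ⟨_, _, rfl⟩)
    apply le_antisymm
    · rw [rf, IntermediateField.adjoin_le_iff]
      rintro _ ⟨i, j, rfl⟩
      rw [← div_div_div_cancel_right₀ hg00]
      exact div_mem (hall i) (hall j)
    · rw [IntermediateField.adjoin_le_iff]
      rintro _ (⟨i, j, rfl⟩ | ⟨l, rfl⟩)
      · exact IntermediateField.subset_adjoin _ _ ⟨rr i, rr j, by rw [hxr, hxr]⟩
      · refine IntermediateField.subset_adjoin _ _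
          ⟨(Fin.natAdd n l).castSucc.succ, 0, ?_⟩
        rw [xm, Fin.append_right, x0, mul_div_cancel_right₀ _ hg00]
  have hxi : AlgebraicIndependent (Kt s) (yx x) := by
    refine Pool.Agent.X328.FD.indep_count (y := y) (alg_of_gens _ {z | ∃ i j, z = x i / x j}
      ?_ ?_) hy ?_
    · have h1 : ∀ a, IsAlgebraic (IntermediateField.adjoin (Kt s) (Set.range (yx x)))
          (x a / x 0) := by
        refine TrL.cases3 (P := fun a => IsAlgebraic
          (IntermediateField.adjoin (Kt s) (Set.range (yx x))) (x a / x 0)) ?_ ?_ ?_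
        · rw [div_self hx0]
          exact isAlgebraic_one
        · intro i
          exact alg_mem (IntermediateField.subset_adjoin _ _ ⟨i, rfl⟩)
        · exact alg_last hF' hlast' hxf hx0
      rintro _ ⟨i, j, rfl⟩
      rw [← div_div_div_cancel_right₀ hx0]
      rw [div_eq_mul_inv]
      exact (h1 i).mul (h1 j).inv
    · have h2 : IntermediateField.adjoin (Kt s) {z | ∃ i j, z = x i / x j} =
          IntermediateField.adjoin (Kt s) S := hrf
      rw [h2]
      exact halg
    · rw [Cardinal.mk_fin]
      exact hc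
  have hcub := cub (Kt s) M (n + m) (rename rr f) hF' hirr' hlast' x
  have hgen := hcub.2 hxf hx0 hxi
  have hdeg := (hcub.1 hgen).2.2
  have hoddx : Odd (finrank (Kc (Kt s) (yx x)) M) := by
    rw [hdeg, hrf]
    exact (by decide : Odd 3).mul hodd
  have hran : Set.range (Sum.elim (fun j : Fin n => g j.castSucc.succ / g 0) R) =
      Set.range (yx x) := by
    rw [hyxe]
    exact (finSumFinEquiv.symm.surjective.range_comp _).symm
  refine main_oddB D hj0 hj1 hT0 hT1 hTD hB g R hg hg00 ?_ ?_ l hl
  · rw [hyxe, algebraicIndependent_equiv] at hxi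
    exact hxi
  · rw [hran]
    exact hoddx

end main

end

end Pool.Agent.H900.PC
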