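import Pool.Agent.H900.PC.A

/-! # Transcendence bases -/

set_option autoImplicit false
set_option linter.unusedSectionVars false
set_option linter.unusedVariables false

namespace Pool.Agent.H900.PC

open Module

noncomputable section

open scoped IntermediateField.algebraAdjoinAdjoin in
/-- an algebraically closed subfield which contains all but one elements of an independent family -/
theorem base_gen (k0 : IntermediateField ℚ ℂ) {S : Type} (z : S → ℂ) (s0 : S)
    (hz : AlgebraicIndependent k0 z) :
    ∃ Ω : IntermediateField ℚ ℂ, IsAlgClosed Ω ∧ Transcendental Ω (z s0) ∧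
      Algebra.IsAlgebraic (IntermediateField.adjoin Ω {z s0}) ℂ ∧ k0 ≤ Ω ∧
      ∀ s, s ≠ s0 → z s ∈ Ω := by
  classical
  obtain ⟨B, hgB, hB⟩ := exists_isTranscendenceBasis_superset (R := k0) (s := Set.range z)
    hz.coe_range
  set c := z s0 with hc
  have hcB : c ∈ B := hgB ⟨_, rfl⟩
  set B' : Set ℂ := B \ {c} with hB'
  obtain ⟨K0, hK0⟩ : ∃ K0 : IntermediateField ℚ ℂ,
    K0 = (IntermediateField.adjoin k0 B').restrictScalars ℚ := ⟨_, rfl⟩
  have hB'K : ∀ z ∈ B', z ∈ K0 := by
    intro z hz
    rw [hK0]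
    exact IntermediateField.subset_adjoin k0 B' hz
  have hk0K : ∀ z ∈ k0, z ∈ K0 := by
    intro z hz
    rw [hK0]
    exact (IntermediateField.adjoin k0 B').algebraMap_mem ⟨z, hz⟩
  have hcK0 : Transcendental K0 c := by
    have h1 := hB.1.transcendental_adjoin (s := {b : B | b.1 ≠ c}) (i := ⟨c, hcB⟩) (by simp)
    have h2 : ((↑) : B → ℂ) '' {b : B | b.1 ≠ c} = B' := by
      ext z
      simp only [Set.mem_image, Set.mem_ofPred_eq, Subtype.exists, exists_and_right,
        exists_eq_right, hB', Set.mem_sdiff, Set.mem_singleton_iff]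
      constructor
      · rintro ⟨h1, h2⟩
        exact ⟨h1, h2⟩
      · rintro ⟨h1, h2⟩
        exact ⟨h1, h2⟩
    rw [h2] at h1
    intro h3
    rw [hK0] at h3
    have h4 : IsAlgebraic (IntermediateField.adjoin k0 B') c := h3
    exact h1 ((IsFractionRing.isAlgebraic_iff (Algebra.adjoin k0 B')
      (IntermediateField.adjoin k0 B') ℂ).2 h4)
  obtain ⟨Ω, hΩ⟩ : ∃ Ω : IntermediateField ℚ ℂ, Ω = (algebraicClosure K0 ℂ).restrictScalars ℚ :=
    ⟨_, rfl⟩
  have hcΩ : Transcendental Ω c := by
    rw [hΩ]
    exact hcK0.algebraicClosure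
  have hΩc : IsAlgClosed Ω := by
    rw [hΩ]
    exact (algebraicClosure.isAlgClosure (F := K0) (E := ℂ)).isAlgClosed
  have hKΩ : ∀ z ∈ K0, z ∈ Ω := by
    intro z hz
    rw [hΩ]
    show z ∈ algebraicClosure K0 ℂ
    exact (algebraicClosure K0 ℂ).algebraMap_mem ⟨z, hz⟩
  refine ⟨Ω, hΩc, hcΩ, ?_, fun z hz => hKΩ z (hk0K z hz), ?_⟩
  · have h1 := hB.isAlgebraic_field
    have hle : ∀ y ∈ IntermediateField.adjoin k0 (Set.range ((↑) : B → ℂ)),
        y ∈ IntermediateField.adjoin Ω {c} := by
      intro y hy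
      induction hy using IntermediateField.adjoin_induction with
      | mem x hx =>
        obtain ⟨b, rfl⟩ := hx
        by_cases hb : b.1 = c
        · rw [hb]
          exact IntermediateField.mem_adjoin_simple_self Ω c
        · exact (IntermediateField.adjoin Ω {c}).algebraMap_mem
            ⟨b.1, hKΩ _ (hB'K _ ⟨b.2, hb⟩)⟩
      | algebraMap x =>
        exact (IntermediateField.adjoin Ω {c}).algebraMap_mem ⟨x.1, hKΩ _ (hk0K _ x.2)⟩
      | add x y _ _ hx hy => exact add_mem hx hy
      | inv x _ hx => exact inv_mem hx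
      | mul x y _ _ hx hy => exact mul_mem hx hy
    let L := IntermediateField.adjoin k0 (Set.range ((↑) : B → ℂ))
    let φ : L →+* (IntermediateField.adjoin Ω {c}) :=
      (algebraMap L ℂ).codRestrict (IntermediateField.adjoin Ω {c}) fun y => hle y.1 y.2
    let _ : Algebra L (IntermediateField.adjoin Ω {c}) := φ.toAlgebra
    have : IsScalarTower L (IntermediateField.adjoin Ω {c}) ℂ :=
      IsScalarTower.of_algebraMap_eq fun x => rfl
    exact Algebra.IsAlgebraic.tower_top (K := L) (IntermediateField.adjoin Ω {c})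
  · intro s hs
    apply hKΩ
    apply hB'K
    refine ⟨hgB ⟨s, rfl⟩, ?_⟩
    intro h
    exact hs (hz.injective h)

/-- a family which generates the same field as an independent family is independent -/
theorem indep_same (k0 : IntermediateField ℚ ℂ) {S : Type} [Finite S] {f z : S → ℂ}
    (hf : AlgebraicIndependent k0 f)
    (h1 : ∀ s, z s ∈ IntermediateField.adjoin k0 (Set.range f))
    (h2 : ∀ s, f s ∈ IntermediateField.adjoin k0 (Set.range z)) :
    AlgebraicIndependent k0 z := by
  refine Pool.Agent.X328.FD.indep_count_sub (IntermediateField.adjoin k0 (Set.range f)) h1 ?_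
    (fun s => IntermediateField.subset_adjoin _ _ ⟨s, rfl⟩) hf le_rfl
  intro y hy
  have h3 : IntermediateField.adjoin k0 (Set.range f) ≤
      IntermediateField.adjoin k0 (Set.range z) := by
    rw [IntermediateField.adjoin_le_iff]
    rintro _ ⟨s, rfl⟩
    exact h2 s
  exact isAlgebraic_algebraMap (⟨y, h3 hy⟩ : IntermediateField.adjoin k0 (Set.range z))

end

end Pool.Agent.H900.PC
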