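import Pool.Agent.H900.PC.Cc

/-! # Families with a prescribed section: the main theorem -/

set_option autoImplicit false
set_option linter.unusedSectionVars false
set_option linter.unusedVariables false

namespace Pool.Agent.H900.PC

open MvPolynomial Module Pool.Agent.H900.PN Pool.Agent.H900.LF Pool.Agent.Helper93K9.PAR

noncomputable section

theorem fv_scale {ι : Type} {n : ℕ} (T : Finset (Finset ι)) (c : ℂ)
    (F : Finset ι → MvPolynomial (Fin (n + 2)) ℂ) {A : Type} [CommRing A] [Algebra ℂ A]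
    (t : ι → A) (y : Fin (n + 2) → A) :
    fv T t (Fsc c F) y =
      algebraMap ℂ A c * fv T t F (fun i => algebraMap ℂ A (sc c⁻¹ i) * y i) := by
  unfold fv
  rw [Finset.mul_sum]
  refine Finset.sum_congr rfl fun τ _ => ?_
  unfold Fsc
  rw [map_mul, aeval_C, comp_aeval_apply]
  have h1 : (fun i => (aeval y) (C (sc c⁻¹ i) * X i)) =
      fun i => algebraMap ℂ A (sc c⁻¹ i) * y i := by
    funext i
    rw [map_mul, aeval_C, aeval_X]
  rw [h1]
  ring

theorem fam_scale {s n : ℕ} (T : Finset (Finset (Fin s))) (c : ℂ)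
    (F : Finset (Fin s) → MvPolynomial (Fin (n + 2)) ℂ) {A : Type} [CommRing A]
    [Algebra (Kt s) A] [Algebra ℂ A] [IsScalarTower ℂ (Kt s) A] (y : Fin (n + 2) → A) :
    aeval y (fam T (Fsc c F)) =
      algebraMap ℂ A c * aeval (fun i => algebraMap ℂ A (sc c⁻¹ i) * y i) (fam T F) := by
  rw [aeval_fam, aeval_fam, fv_scale]

theorem sc_inv {n : ℕ} {k : Type} [Field k] {c : k} (hc : c ≠ 0) (i : Fin (n + 2)) :
    sc c⁻¹ i * sc c i = 1 := by
  unfold sc
  split_ifs
  · exact inv_mul_cancel₀ hc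
  · exact one_mul 1

theorem sc_ne {n : ℕ} {k : Type} [Field k] {c : k} (hc : c ≠ 0) (i : Fin (n + 2)) :
    sc c i ≠ 0 := by
  intro h
  have h1 := sc_inv hc i
  rw [h, mul_zero] at h1
  exact zero_ne_one h1

theorem main_sec {s n m : ℕ} (D : Dat n (Fin s)) {i0 : Fin s} {j0 : Fin n}
    (hj0 : D.side j0 = false) (hj1 : D.sg j0 = {i0}) {T : Finset (Finset (Fin s))}
    (hT0 : ∅ ∈ T) (hT1 : {i0} ∈ T) (hTD : ∀ j, D.sg j ∈ T)
    {F : Finset (Fin s) → MvPolynomial (Fin (n + 2)) ℂ} (hF : ∀ τ ∈ T, (F τ).IsHomogeneous 3)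
    (k0 : IntermediateField ℚ ℂ)
    (hk0 : ∀ τ ∈ T, ∀ β : Fin (n + 2) →₀ ℕ, β 0 = 0 → β (Fin.last (n + 1)) = 0 →
      coeff β (F τ) ∈ k0)
    (hind : AlgebraicIndependent k0 (fun p : T × Fm n => coeff p.2.1 (F p.1)))
    {M : Type} [Field M] [Algebra (Kt s) M] (g : Fin (n + 2) → M) (R : Fin m → M)
    (hg0 : g ≠ 0) (hg : aeval g (fam T F) = 0) {ι' : Type} {y : ι' → M}
    (hy : AlgebraicIndependent (Kt s) y) (hc : ((n + m : ℕ) : Cardinal) ≤ Cardinal.mk ι')
    (hodd : Odd (finrank (IntermediateField.adjoin (Kt s)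
      ({z | ∃ i j, z = g i / g j} ∪ Set.range R)) M))
    (l : Fin (n + 2) → M) (hl : ∀ i, IsAlgebraic (Kt s) (l i)) :
    ¬ Relation.ReflTransGen (Joined (fam T F)) g l := by
  classical
  intro hch
  obtain ⟨c, hc0, hB⟩ := exists_HB D (i0 := i0) j0 hT0 hF k0 hk0 hind
  let _ : Algebra ℂ M := ((algebraMap (Kt s) M).comp (algebraMap ℂ (Kt s))).toAlgebra
  have _ : IsScalarTower ℂ (Kt s) M := IsScalarTower.of_algebraMap_eq fun _ => rfl
  have _ : IsScalarTower ℂ (Kt s) (Polynomial M) := IsScalarTower.of_algebraMap_eq fun _ => rfl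
  have hF' : ∀ τ ∈ T, (Fsc c F τ).IsHomogeneous 3 := by
    intro τ hτ β hβ
    rw [coeff_Fsc] at hβ
    exact hF τ hτ (right_ne_zero_of_mul (right_ne_zero_of_mul hβ))
  have hlast0 : (Finsupp.single (Fin.last (n + 1)) 3 : Fin (n + 2) →₀ ℕ) (Fin.last (n + 1)) = 3 :=
    Finsupp.single_eq_same
  have hco : coeff (Finsupp.single (Fin.last (n + 1)) 3) (fam T (Fsc c F)) ≠ 0 := by
    apply fam_coeff hT0
    rw [coeff_Fsc]
    refine mul_ne_zero hc0 (mul_ne_zero (pow_ne_zero _ (inv_ne_zero hc0)) ?_)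
    exact hind.ne_zero (⟨∅, hT0⟩, ⟨Finsupp.single (Fin.last (n + 1)) 3,
      Finsupp.degree_single _ _, Or.inr (by rw [hlast0]; decide)⟩)
  let u : Fin (n + 2) → Kt s := fun i => algebraMap ℂ (Kt s) (sc c i)
  have hu0 : ∀ i, u i ≠ 0 := fun i => by
    show algebraMap ℂ (Kt s) (sc c i) ≠ 0
    rw [Ne, map_eq_zero]
    exact sc_ne hc0 i
  have hv0 : ∀ i, algebraMap (Kt s) M (u i) ≠ 0 := fun i => by
    rw [Ne, map_eq_zero]
    exact hu0 i
  have huv : ∀ i, algebraMap ℂ M (sc c⁻¹ i) * algebraMap (Kt s) M (u i) = 1 := by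
    intro i
    show algebraMap ℂ M (sc c⁻¹ i) * algebraMap ℂ M (sc c i) = 1
    rw [← map_mul, sc_inv hc0, map_one]
  let σ : (Fin (n + 2) → M) → Fin (n + 2) → M := fun a i => algebraMap (Kt s) M (u i) * a i
  have hσ0 : ∀ a, a ≠ 0 → σ a ≠ 0 := by
    intro a ha h
    apply ha
    funext i
    have h1 : algebraMap (Kt s) M (u i) * a i = 0 := congrFun h i
    exact (mul_eq_zero.1 h1).resolve_left (hv0 i)
  have hadj : IntermediateField.adjoin (Kt s) ({z | ∃ i j, z = σ g i / σ g j} ∪ Set.range R) =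
      IntermediateField.adjoin (Kt s) ({z | ∃ i j, z = g i / g j} ∪ Set.range R) := by
    apply le_antisymm
    · rw [IntermediateField.adjoin_le_iff]
      rintro _ (⟨i, j, rfl⟩ | ⟨l, rfl⟩)
      · have h1 : σ g i / σ g j = algebraMap (Kt s) M (u i / u j) * (g i / g j) := by
          rw [map_div₀]
          exact mul_div_mul_comm _ _ _ _
        rw [h1]
        exact mul_mem (IntermediateField.algebraMap_mem _ _)
          (IntermediateField.subset_adjoin _ _ (Or.inl ⟨i, j, rfl⟩))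
      · exact IntermediateField.subset_adjoin _ _ (Or.inr ⟨_, rfl⟩)
    · rw [IntermediateField.adjoin_le_iff]
      rintro _ (⟨i, j, rfl⟩ | ⟨l, rfl⟩)
      · have h1 : g i / g j = algebraMap (Kt s) M (u j / u i) * (σ g i / σ g j) := by
          have h2 : σ g i / σ g j = algebraMap (Kt s) M (u i / u j) * (g i / g j) := by
            rw [map_div₀]
            exact mul_div_mul_comm _ _ _ _
          rw [h2, ← mul_assoc, ← map_mul, div_mul_div_comm, mul_comm (u j), div_self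
            (mul_ne_zero (hu0 i) (hu0 j)), map_one, one_mul]
        rw [h1]
        exact mul_mem (IntermediateField.algebraMap_mem _ _)
          (IntermediateField.subset_adjoin _ _ (Or.inl ⟨i, j, rfl⟩))
      · exact IntermediateField.subset_adjoin _ _ (Or.inr ⟨_, rfl⟩)
  refine main_auxB D hj0 hj1 hT0 hT1 hTD hF' hB hco (σ g) R (hσ0 g hg0) ?_ hy hc ?_ (σ l) ?_ ?_
  · rw [fam_scale]
    have h1 : (fun i => algebraMap ℂ M (sc c⁻¹ i) * σ g i) = g := by
      funext i
      show algebraMap ℂ M (sc c⁻¹ i) * (algebraMap (Kt s) M (u i) * g i) = g i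
      rw [← mul_assoc, huv, one_mul]
    rw [h1, hg, mul_zero]
  · rw [hadj]
    exact hodd
  · intro i
    exact (isAlgebraic_algebraMap _).mul (hl i)
  · refine Relation.ReflTransGen.lift σ (fun a b h => ?_) _ _ hch
    obtain ⟨ha, hb, d, Cc, hd, hC, ⟨e1, he1, h1⟩, e2, he2, h2⟩ := h
    refine ⟨hσ0 a ha, hσ0 b hb, d, fun i => Polynomial.C (algebraMap (Kt s) M (u i)) * Cc i,
      fun i => ?_, ?_, ⟨e1, he1, fun i => ?_⟩, e2, he2, fun i => ?_⟩
    · exact (Polynomial.natDegree_C_mul_le _ _).trans (hd i)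
    · rw [fam_scale]
      have h3 : (fun i => algebraMap ℂ (Polynomial M) (sc c⁻¹ i) *
          (Polynomial.C (algebraMap (Kt s) M (u i)) * Cc i)) = Cc := by
        funext i
        have h4 : algebraMap ℂ (Polynomial M) (sc c⁻¹ i) =
            Polynomial.C (algebraMap ℂ M (sc c⁻¹ i)) := rfl
        rw [h4, ← mul_assoc, ← Polynomial.C_mul, huv, Polynomial.C_1, one_mul]
      rw [h3, hC, mul_zero]
    · rw [Polynomial.coeff_C_mul, h1]
      show _ = e1 * (algebraMap (Kt s) M (u i) * a i)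
      ring
    · rw [Polynomial.coeff_C_mul, h2]
      show _ = e2 * (algebraMap (Kt s) M (u i) * b i)
      ring

end

end Pool.Agent.H900.PC
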