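import Pool.Agent.H900.PC.Dd

/-! # The coefficients of the section -/

set_option autoImplicit false
set_option linter.unusedSectionVars false
set_option linter.unusedVariables false

namespace Pool.Agent.H900.PC

open MvPolynomial Module Pool.Agent.H900.PN Pool.Agent.H900.LF Pool.Agent.Helper93K9.PAR FF

noncomputable section

theorem coeff_section {n : ℕ} {k : Type} [CommRing k] (F : MvPolynomial (Fin (n + 2)) k)
    (β : Fin (n + 2) →₀ ℕ) (h0 : β 0 = 0) (hl : β (Fin.last (n + 1)) = 0) :
    ∃ β' : Fin n →₀ ℕ, coeff β F = coeff β' (aeval (Fin.cons 0 (Fin.snoc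
      (α := fun _ => MvPolynomial (Fin n) k) X 0) : Fin (n + 2) → MvPolynomial (Fin n) k) F) := by
  classical
  let e : Fin n → Fin (n + 2) := fun j => j.castSucc.succ
  have he : Function.Injective e := fun a b h =>
    Fin.castSucc_injective _ (Fin.succ_injective _ h)
  let v : Fin (n + 2) → MvPolynomial (Fin n) k := Fin.cons 0 (Fin.snoc
      (α := fun _ => MvPolynomial (Fin n) k) X 0)
  have h1 : ∀ P : MvPolynomial (Fin (n + 2)) k, rename e (aeval v P) =
      aeval (fun i => C (sc (0 : k) i) * X i : Fin (n + 2) → MvPolynomial (Fin (n + 2)) k) P := by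
    intro P
    rw [comp_aeval_apply]
    congr 1
    congr 1
    funext i
    refine TrL.cases3 (P := fun i => rename e (v i) = C (sc (0 : k) i) * X i) ?_ ?_ ?_ i
    · show rename e (0 : MvPolynomial (Fin n) k) = _
      rw [map_zero, show (sc (0 : k) (0 : Fin (n + 2))) = 0 from if_pos (Or.inl rfl), C_0, zero_mul]
    · intro j
      have h2 : v j.castSucc.succ = X j := by
        show (Fin.cons 0 (Fin.snoc (α := fun _ => MvPolynomial (Fin n) k) X 0) :
          Fin (n + 2) → MvPolynomial (Fin n) k) j.castSucc.succ = X j
        rw [Fin.cons_succ, Fin.snoc_castSucc]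
      have h3 : sc (0 : k) j.castSucc.succ = 1 := by
        refine if_neg ?_
        rintro (h | h)
        · exact absurd h (Fin.succ_ne_zero _)
        · have h3 := congrArg Fin.val h
          simp only [Fin.val_succ, Fin.val_castSucc, Fin.val_last] at h3
          have := j.isLt
          omega
      rw [h2, rename_X, h3, C_1, one_mul]
    · have h2 : v (Fin.last (n + 1)) = 0 := by
        show (Fin.cons 0 (Fin.snoc (α := fun _ => MvPolynomial (Fin n) k) X 0) :
          Fin (n + 2) → MvPolynomial (Fin n) k) (Fin.last (n + 1)) = 0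
        rw [← Fin.succ_last n, Fin.cons_succ, Fin.snoc_last]
      rw [h2, map_zero, show (sc (0 : k) (Fin.last (n + 1))) = 0 from if_pos (Or.inr rfl), C_0,
        zero_mul]
  have hsup : (β.support : Set (Fin (n + 2))) ⊆ Set.range e := by
    intro i hi
    revert hi
    refine TrL.cases3 (P := fun i => i ∈ (β.support : Set (Fin (n + 2))) → i ∈ Set.range e)
      ?_ ?_ ?_ i
    · intro h
      exact absurd h0 (Finsupp.mem_support_iff.1 h)
    · intro j _
      exact ⟨j, rfl⟩
    · intro h
      exact absurd hl (Finsupp.mem_support_iff.1 h)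
  refine ⟨Finsupp.comapDomain e β he.injOn, ?_⟩
  rw [← coeff_rename_mapDomain e he, Finsupp.mapDomain_comapDomain e he β hsup]
  show _ = coeff β (rename e (aeval v F))
  rw [h1, coeff_scale, prod_sc, show ey β = 0 by unfold ey; rw [h0, hl], pow_zero, one_mul]

/-- a countable field of definition -/
theorem countable_adjoin {S : Set ℂ} (hS : S.Countable) :
    Countable (IntermediateField.adjoin ℚ S) := by
  have h1 := IntermediateField.cardinalMk_adjoin_le ℚ S
  have h2 : Countable S := hS.to_subtype
  rw [← Cardinal.mk_le_aleph0_iff]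
  refine h1.trans ?_
  refine max_le (max_le ?_ ?_) le_rfl
  · exact Cardinal.mk_le_aleph0
  · exact Cardinal.mk_le_aleph0

end

end Pool.Agent.H900.PC
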